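import Pool.Agent.SSF.StmtsC

/-! Row HUF of squad SSF: finite unions of closed subspaces all of whose open subsets are stable. -/

set_option autoImplicit false

open Set Topology

namespace Pool.Agent.SSF.H96

open Pool.Agent.LSG Pool.Agent.LPR Pool.Agent.SSF

/-- a subset of a subset -/
def subHomeo {X : Type} [TopologicalSpace X] {S Z : Set X} (h : S ⊆ Z) :
    ↥S ≃ₜ ↥(Subtype.val ⁻¹' S : Set ↥Z) where
  toFun x := ⟨⟨x.1, h x.2⟩, x.2⟩
  invFun y := ⟨y.1.1, y.2⟩
  left_inv _ := rfl
  right_inv _ := rfl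
  continuous_toFun := by fun_prop
  continuous_invFun := by fun_prop

theorem hs_empty {X : Type} [TopologicalSpace X] (h : IsEmpty X) : HS X := by
  intro O _
  have h1 : Subsingleton ↥(Sg O) := by
    refine ⟨fun a b => Subtype.ext (funext fun x => (h.false x.1).elim)⟩
  exact ⟨0, 0, fun x => Subsingleton.elim _ _⟩

theorem huf (hho : HhoStmt) (hu2 : Hu2Stmt) : HufStmt := by
  intro X I _ _ F Y hcl hF
  classical
  induction F using Finset.induction_on with
  | empty =>
    apply hs_empty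
    refine ⟨fun x => ?_⟩
    simpa using x.2
  | insert j F hj ih =>
    have ih' := ih (fun i hi => hF i (Finset.mem_insert_of_mem hi))
    have hj' := hF j (Finset.mem_insert_self j F)
    have h1 : Y j ⊆ ⋃ i ∈ insert j F, Y i := fun x hx => by
      simp only [Set.mem_iUnion]
      exact ⟨j, Finset.mem_insert_self j F, hx⟩
    have h2 : (⋃ i ∈ F, Y i) ⊆ ⋃ i ∈ insert j F, Y i := fun x hx => by
      simp only [Set.mem_iUnion] at hx ⊢
      obtain ⟨i, hi, hx⟩ := hx
      exact ⟨i, Finset.mem_insert_of_mem hi, hx⟩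
    have hclF : IsClosed (⋃ i ∈ F, Y i) :=
      F.finite_toSet.isClosed_biUnion (fun i _ => hcl i)
    refine hu2 ↥(⋃ i ∈ insert j F, Y i) (Subtype.val ⁻¹' (Y j))
      (Subtype.val ⁻¹' (⋃ i ∈ F, Y i)) ((hcl j).preimage continuous_subtype_val)
      (hclF.preimage continuous_subtype_val) ?_
      (hho _ _ ⟨subHomeo h1⟩ hj') (hho _ _ ⟨subHomeo h2⟩ ih')
    apply Set.eq_univ_of_forall
    rintro ⟨x, hx⟩
    have hx2 := hx
    simp only [Set.mem_iUnion] at hx2
    obtain ⟨i, hi, hxi⟩ := hx2
    rcases Finset.mem_insert.1 hi with hij | hi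
    · left
      show x ∈ Y j
      rw [← hij]
      exact hxi
    · refine Or.inr ?_
      show x ∈ ⋃ i ∈ F, Y i
      simp only [Set.mem_iUnion]
      exact ⟨i, hi, hxi⟩

end Pool.Agent.SSF.H96
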